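import Pool.Agent.helper95.DP.SpecH

/-!
# Project dp, module HGD: almost every sequence of waiting times is good
-/

namespace DP

open MeasureTheory ProbabilityTheory Filter Topology

theorem HGD_pos (h : HEX_stmt) : ∀ᵐ x ∂nuT, ∀ i, 0 < x i := by
  rw [ae_all_iff]
  intro i
  have h1 : nuT ((Function.eval i) ⁻¹' Set.Iic (0 : ℝ)) = 0 := by
    have h2 := (measurePreserving_eval_infinitePi (fun _ : ℕ => expMeasure 1) i).measure_preimage
      (measurableSet_Iic (a := (0 : ℝ))).nullMeasurableSet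
    rw [h.2.2] at h2
    exact h2
  rw [ae_iff]
  refine measure_mono_null (fun x hx => ?_) h1
  simpa using hx

theorem HGD_lt (h : HEX_stmt) : (expMeasure 1) (Set.Iic (1 : ℝ)) < 1 := by
  have h1 := h.1 1 zero_le_one
  have h2 : (expMeasure 1).real (Set.Iic (1 : ℝ)) = 1 - Real.exp (-1) := by
    rw [← Set.compl_Ioi, probReal_compl_eq_one_sub measurableSet_Ioi, h1]
  have h3 : (expMeasure 1).real (Set.Iic (1 : ℝ)) < 1 := by
    rw [h2]
    have := Real.exp_pos (-1)
    linarith
  rw [Measure.real] at h3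
  rw [← ENNReal.ofReal_toReal (measure_ne_top (expMeasure 1) (Set.Iic (1 : ℝ))),
    ← ENNReal.ofReal_one]
  exact (ENNReal.ofReal_lt_ofReal_iff one_pos).2 h3

theorem HGD_large (h : HEX_stmt) : ∀ᵐ x ∂nuT, ∀ n : ℕ, ∃ i, n ≤ i ∧ 1 < x i := by
  rw [ae_all_iff]
  intro n
  rw [ae_iff]
  have hb : ∀ k : ℕ, nuT {x : ℕ → ℝ | ¬ ∃ i, n ≤ i ∧ 1 < x i} ≤
      (expMeasure 1) (Set.Iic (1 : ℝ)) ^ k := by
    intro k
    have h2 := Measure.infinitePi_pi (μ := fun _ : ℕ => expMeasure 1)
      (s := Finset.Ico n (n + k)) (t := fun _ => Set.Iic (1 : ℝ)) (fun _ _ => measurableSet_Iic)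
    rw [Finset.prod_const, Nat.card_Ico, Nat.add_sub_cancel_left] at h2
    rw [← h2]
    refine measure_mono fun x hx => ?_
    simp only [Set.mem_ofPred_eq, not_exists, not_and, not_lt] at hx
    intro i hi
    have hi' := Finset.mem_Ico.1 (Finset.mem_coe.1 hi)
    exact hx i hi'.1
  refine le_antisymm ?_ bot_le
  exact ge_of_tendsto' (ENNReal.tendsto_pow_atTop_nhds_zero_of_lt_one (HGD_lt h)) hb

theorem HGD (h : HEX_stmt) : HGD_stmt := by
  unfold HGD_stmt
  filter_upwards [HGD_pos h, HGD_large h] with x hpos hlarge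
  refine ⟨hpos, ?_⟩
  have hmono : Monotone (rt x) := by
    refine monotone_nat_of_le_succ fun k => ?_
    unfold rt
    rw [Finset.sum_range_succ]
    linarith [hpos k]
  refine tendsto_atTop_atTop_of_monotone hmono fun M => ?_
  have key : ∀ m : ℕ, ∃ k, (m : ℝ) ≤ rt x k := by
    intro m
    induction m with
    | zero => exact ⟨0, by simp [rt]⟩
    | succ m ih =>
      obtain ⟨k, hk⟩ := ih
      obtain ⟨i, hi, hxi⟩ := hlarge k
      refine ⟨i + 1, ?_⟩
      have h1 : rt x k ≤ rt x i := hmono hi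
      have h2 : rt x (i + 1) = rt x i + x i := by
        unfold rt
        rw [Finset.sum_range_succ]
      push_cast
      rw [h2]
      linarith
  obtain ⟨k, hk⟩ := key ⌈M⌉₊
  exact ⟨k, (Nat.le_ceil M).trans hk⟩

end DP
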