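import Pool.Agent.helper95.DP.SpecH

/-!
# Project dp, module HNS: no simultaneous rings
-/

namespace DP

open MeasureTheory ProbabilityTheory Filter Topology

theorem HNS_measurable_rt (k : ℕ) : Measurable fun x : ℕ → ℝ => rt x k := by
  unfold rt
  exact Finset.measurable_sum _ fun i _ => measurable_pi_apply i

/-- One site: the clock is good. -/
theorem HNS_good (hG : HGD_stmt) (v : V) : ∀ᵐ X ∂PV, GoodT (X v).1 := by
  have h1 : ∀ᵐ x ∂nu, GoodT x.1 := by
    unfold nu
    have h2 : Tendsto (Prod.fst : Path → (ℕ → ℝ)) (ae (nuT.prod nuU)) (ae nuT) :=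
      Measure.quasiMeasurePreserving_fst.tendsto_ae
    exact h2.eventually hG
  have h3 : Tendsto (Function.eval v : (V → Path) → Path) (ae PV) (ae nu) :=
    (measurePreserving_eval_infinitePi (fun _ : V => nu) v).quasiMeasurePreserving.tendsto_ae
  exact h3.eventually h1

/-- Two sites: no simultaneous rings. -/
theorem HNS_two (hA : HAT_stmt) (u v : V) (huv : u ≠ v) (k l : ℕ) :
    ∀ᵐ X ∂PV, rt (X u).1 (k + 1) ≠ rt (X v).1 (l + 1) := by
  have hmap : PV.map (fun X => (X u, X v)) = nu.prod nu :=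
    Measure.infinitePi_map_eval_prod (P := fun _ : V => nu) huv
  have hmeas : Measurable fun X : V → Path => (X u, X v) := by fun_prop
  have hset : MeasurableSet {p : Path × Path | rt p.1.1 (k + 1) = rt p.2.1 (l + 1)} :=
    measurableSet_eq_fun ((HNS_measurable_rt (k + 1)).comp (measurable_fst.comp measurable_fst))
      ((HNS_measurable_rt (l + 1)).comp (measurable_fst.comp measurable_snd))
  have hzero : (nu.prod nu) {p : Path × Path | rt p.1.1 (k + 1) = rt p.2.1 (l + 1)} = 0 := by
    rw [Measure.prod_apply_symm hset]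
    refine lintegral_eq_zero_of_ae_eq_zero ?_
    refine ae_of_all _ fun y => ?_
    show nu ((fun x => (x, y)) ⁻¹' _) = 0
    have h1 : ((fun x : Path => (x, y)) ⁻¹'
        {p : Path × Path | rt p.1.1 (k + 1) = rt p.2.1 (l + 1)}) =
        Prod.fst ⁻¹' {x : ℕ → ℝ | rt x (k + 1) = rt y.1 (l + 1)} := by
      ext x
      simp
    rw [h1]
    unfold nu
    exact Measure.quasiMeasurePreserving_fst.preimage_null (hA k (rt y.1 (l + 1)))
  rw [ae_iff]
  have h2 : {X : V → Path | ¬ rt (X u).1 (k + 1) ≠ rt (X v).1 (l + 1)} =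
      (fun X : V → Path => (X u, X v)) ⁻¹'
        {p : Path × Path | rt p.1.1 (k + 1) = rt p.2.1 (l + 1)} := by
    ext X
    simp
  rw [h2, ← Measure.map_apply hmeas hset, hmap, hzero]

theorem HNS (hG : HGD_stmt) (hA : HAT_stmt) : HNS_stmt := by
  unfold HNS_stmt
  rw [eventually_and]
  refine ⟨ae_all_iff.2 fun v => HNS_good hG v, ?_⟩
  rw [ae_all_iff]
  intro u
  rw [ae_all_iff]
  intro v
  by_cases huv : u = v
  · exact ae_of_all _ fun X h => absurd huv h
  · have h1 : ∀ᵐ X ∂PV, ∀ k l : ℕ, rt (X u).1 (k + 1) ≠ rt (X v).1 (l + 1) := by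
      rw [ae_all_iff]
      intro k
      rw [ae_all_iff]
      intro l
      exact HNS_two hA u v huv k l
    filter_upwards [h1] with X hX _
    exact hX

end DP
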